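import Pool.Agent.N85.WM.Fin

/-!
# Alperin's weight conjecture for one group and the iterated wreath products
-/

set_option autoImplicit false

open scoped Classical BigOperators

noncomputable section

namespace Pool.Agent.U507.AW

open Pool.Agent.Y63.NV
open Pool.Agent.N85.WM

/-- the iterated wreath products `G, G ≀ C_p, (G ≀ C_p) ≀ C_p, …` -/
def WrN (p : ℕ) : ℕ → ∀ (G : Type) [Group G], Type
  | 0, G, _ => G
  | j + 1, G, _ => WrN p j (Wr p G)

instance instGroupWrN (p : ℕ) : ∀ (j : ℕ) (G : Type) [i : Group G], Group (WrN p j G)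
  | 0, _, i => i
  | j + 1, G, _ => instGroupWrN p j (Wr p G)

theorem finite_WrN (p : ℕ) [NeZero p] : ∀ (j : ℕ) (G : Type) [Group G], Finite G →
    Finite (WrN p j G)
  | 0, _, _, h => h
  | j + 1, G, _, h => finite_WrN p j (Wr p G) (@Pool.Agent.N85.WM.fin_wr p G _ _ h)

/-- `l` and `w` of the wreath product -/
theorem wr_formulas {p : ℕ} [Fact p.Prime] (F : Type) [Field F]
    [IsAlgClosed F] [CharP F p] (red : integralClosure ℤ ℂ →+* F)
    (G : Type) [Group G] [Finite G] :
    (p : ℤ) * numIrr F (Wr p G) = (numIrr F G : ℤ) ^ p + (p - 1) * numIrr F G ∧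
    (p : ℤ) * numWt p (Wr p G) = (numWt p G : ℤ) ^ p + (p - 1) * numWt p G := by
  have hp : p.Prime := Fact.out
  have he : IsIdem (uno F G) := uno_idem
  have e1 : Lnum (⊤ : Subgroup G) ⊤ (uno F G) 1 = numIrr F G := lnum_uno
  have e2 := cvS_uno (p := p) (G := G) red
  set l : ℕ := numIrr F G
  set w : ℕ := numWt p G
  have hz := wrF_inZ p G he.cl
  have hzc : IsClassFun (wrF p (uno F G)) := hz.conj
  have g0 : (Nat.card G : ℤ) ≠ 0 := by exact_mod_cast (Nat.card_pos (α := G)).ne'
  have gp0 : (Nat.card G : ℤ) ^ p ≠ 0 := pow_ne_zero _ g0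
  have p0 : (p : ℤ) ≠ 0 := by exact_mod_cast hp.ne_zero
  have a1 := pell' p F (Wr p G) (Base p G) (wrF p (uno F G)) 1 (card_quot p G) hz
  obtain ⟨a2, a3⟩ := lw' p F G (uno F G) he
  rw [a2, a3, lsum_top, card_wr, e1, wrF_uno, lnum_uno] at a1
  set L : ℕ := numIrr F (Wr p G)
  have b1 := pewL' p F red (Wr p G) (Base p G) (wrF p (uno F G)) 1 (card_quot p G) hz
  have b0 : Wsum p red (⊤ : Subgroup G) ⊤ (uno F G) 1 = (Nat.card G : ℤ) * w := by
    rw [wsum_top red he.cl, e2]
  obtain ⟨b2, b3⟩ := ww' p F red G (uno F G) w he b0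
  rw [b2, b3, wsum_top red hzc, card_wr, wrF_uno, cvS_uno red] at b1
  set W : ℕ := numWt p (Wr p G)
  constructor
  · refine mul_left_cancel₀ (mul_ne_zero p0 gp0) ?_
    push_cast at a1
    linear_combination a1
  · refine mul_left_cancel₀ (mul_ne_zero p0 gp0) ?_
    push_cast at b1
    linear_combination b1

/-- if `p^(k+1)` divides `l - w`, then `p^k` divides `L - W` -/
theorem arith_down {p : ℕ} (hp : p.Prime) {k : ℕ} {l w L W : ℤ}
    (hL : (p : ℤ) * L = l ^ p + (p - 1) * l) (hW : (p : ℤ) * W = w ^ p + (p - 1) * w)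
    (h1 : (p : ℤ) ^ (k + 1) ∣ l - w) : (p : ℤ) ^ k ∣ L - W := by
  have p0 : (p : ℤ) ≠ 0 := by exact_mod_cast hp.ne_zero
  have h2 : (p : ℤ) * (L - W) = (l ^ p - w ^ p) + (p - 1) * (l - w) := by
    rw [mul_sub, hL, hW]; ring
  have h3 : l - w ∣ l ^ p - w ^ p := sub_dvd_pow_sub_pow l w p
  have h4 : (p : ℤ) ^ (k + 1) ∣ (p : ℤ) * (L - W) := by
    rw [h2]
    exact dvd_add (h1.trans h3) (h1.mul_left _)
  rw [pow_succ'] at h4
  exact (mul_dvd_mul_iff_left p0).mp h4

/-- the congruence for the numbers of triples with `g = 1` -/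
def Cong (p : ℕ) (G : Type) [Group G] : Prop :=
  regTrip p (1 : G) ≡ ∑ᶠ Q : {Q : Subgroup G // IsPGroup p Q}, tripNum p Q.1 (1 : G) / Nat.card Q.1
    [MOD p ^ ((Nat.card G).factorization p + 1)]

theorem cong_iff {p : ℕ} [Fact p.Prime] (F : Type) [Field F]
    [IsAlgClosed F] [CharP F p] (red : integralClosure ℤ ℂ →+* F)
    (G : Type) [Group G] [Finite G] :
    Cong p G ↔ (p : ℤ) ∣ (numIrr F G : ℤ) - numWt p G := by
  have h1 := (tot_iff lt' dzq' p F red G)
  have h2 := com_iff p (1 : G)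
  unfold Cong
  rw [← h2, ← h1]
  constructor
  · intro h
    have := Nat.modEq_iff_dvd.mp h.symm
    exact this
  · intro h
    exact (Nat.modEq_iff_dvd.mpr h).symm

/-- **The exact criterion for one group.** -/
theorem tower (p : ℕ) [Fact p.Prime] (F : Type) [Field F]
    [IsAlgClosed F] [CharP F p] (red : integralClosure ℤ ℂ →+* F) (a : ℕ) :
    ∀ (G : Type) [Group G] [Finite G],
      (p : ℤ) ^ a ∣ (numIrr F G : ℤ) - numWt p G ↔ ∀ j < a, Cong p (WrN p j G) := by
  have hp : p.Prime := Fact.out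
  have := hp.ne_zero
  have : NeZero p := ⟨this⟩
  induction a with
  | zero => intro G _ _; simp
  | succ a ih =>
    intro G _ _
    obtain ⟨hL, hW⟩ := wr_formulas F red G
    have ih' := ih (Wr p G)
    constructor
    · intro h j hj
      cases j with
      | zero =>
        change Cong p G
        rw [cong_iff F red G]
        exact (dvd_pow_self _ (by omega)).trans h
      | succ j =>
        change Cong p (WrN p j (Wr p G))
        exact ih'.mp (arith_down hp hL hW h) j (by omega)
    · intro h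
      have h0 : (p : ℤ) ∣ (numIrr F G : ℤ) - numWt p G := by
        rw [← cong_iff F red G]
        exact h 0 (by omega)
      have h1 : (p : ℤ) ^ a ∣ (numIrr F (Wr p G) : ℤ) - numWt p (Wr p G) :=
        ih'.mpr fun j hj => h (j + 1) (by omega)
      have key : ∀ k : ℕ, k ≤ a → (p : ℤ) ^ (k + 1) ∣ (numIrr F G : ℤ) - numWt p G := by
        intro k
        induction k with
        | zero => intro _; simpa using h0
        | succ k ihk =>
          intro hk
          exact arith hp (by omega) hL hW (ihk (by omega)) ((pow_dvd_pow _ hk).trans h1)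
      exact key a le_rfl

theorem tower_eq (p : ℕ) [Fact p.Prime] (F : Type) [Field F]
    [IsAlgClosed F] [CharP F p] (red : integralClosure ℤ ℂ →+* F)
    (G : Type) [Group G] [Finite G] :
    numIrr F G = numWt p G ↔ ∀ j : ℕ, Cong p (WrN p j G) := by
  have hp : p.Prime := Fact.out
  constructor
  · intro h j
    refine (tower p F red (j + 1) G).mp ?_ j (Nat.lt_succ_self j)
    rw [h, sub_self]
    exact dvd_zero _
  · intro h
    have h1 : ∀ a : ℕ, (p : ℤ) ^ a ∣ (numIrr F G : ℤ) - numWt p G := fun a =>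
      (tower p F red a G).mpr fun j _ => h j
    by_contra hne
    have h2 : ((numIrr F G : ℤ) - numWt p G) ≠ 0 := by
      intro h3
      exact hne (by exact_mod_cast sub_eq_zero.mp h3)
    have h3 := Int.le_of_dvd (abs_pos.mpr h2) ((dvd_abs _ _).mpr
      (h1 ((numIrr F G : ℤ) - numWt p G).natAbs))
    have h4 : (((numIrr F G : ℤ) - numWt p G).natAbs : ℤ) =
        |(numIrr F G : ℤ) - numWt p G| := Int.natCast_natAbs _
    have h5 : ((numIrr F G : ℤ) - numWt p G).natAbs <
        p ^ ((numIrr F G : ℤ) - numWt p G).natAbs := Nat.lt_pow_self hp.one_lt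
    have h6 : (((numIrr F G : ℤ) - numWt p G).natAbs : ℤ) <
        (p : ℤ) ^ ((numIrr F G : ℤ) - numWt p G).natAbs := by exact_mod_cast h5
    omega

end Pool.Agent.U507.AW
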